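import Pool.Agent.Results.MP_05f553_nt.FewExceptions
import Pool.Agent.X174.WinQ

/-!
# Philippon's inequality for ALL `y` in squares around the members of thin sequences of points, and all `x`

Let `α ≥ 1`, `β ≥ 0`, `ε < 1/2`, `ε B ≥ 2` and let `v ≥ 1` be a sequence of exponent of convergence at most `τ` (for
`v_i = (i + 1) ^ a` this is `1 / a`, for `v_i = b ^ i` it is `0`), `ρ < 1`. (1) Outside a set of `(s, t) ∈ ℝ²` of Hausdorff
dimension at most `(2 / α + τ) / (1 - ρ)` the following holds for all but finitely many `i`: the inequality is true for ALL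
`y = p / q ≠ 0` in lowest terms with `|p - s v_i| ≤ v_i ^ ρ`, `|q - t v_i| ≤ v_i ^ ρ` and ALL `x ≠ 0` with `x y ^ B ≠ ± 1`.
(2) Outside a set of dimension at most `(1 / (α B) + τ) / (1 - ρ)` this holds for EACH `x ≠ 0` and all but finitely many
`i` (which depend on `x`). The number of exceptions is from the starting result `FewExceptions`.
-/

set_option autoImplicit false

namespace Pool.Agent.Results.MP_05f553_nt.PointsInSquares

open FewExceptions (ht Holds Exceptions)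

/-- the exponent of convergence of the sequence `v` is at most `τ` -/
def ExpLe (v : ℕ → ℝ) (τ : ℝ) : Prop := ∀ t : ℝ, τ < t → Summable (fun n : ℕ => (v n) ^ (-t))

/-- **Theorem.** Let `α ≥ 1`, `β ≥ 0`, `ε < 1/2`, `ε B ≥ 2`, let `v ≥ 1` be a sequence of exponent of convergence at most
`τ ≥ 0` and `ρ < 1`.
(1) There is a set `E ⊂ ℝ²` of Hausdorff dimension at most `(2 / α + τ) / (1 - ρ)` such that for each `s` outside `E`, for
all but finitely many `i`, Philippon's inequality holds for ALL rational `y ≠ 0` whose numerator (denominator) differs from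
`s_0 v_i` (`s_1 v_i`) by at most `v_i ^ ρ` and ALL rational `x ≠ 0` with `x y ^ B ≠ ± 1`.
(2) There is a set `E ⊂ ℝ²` of Hausdorff dimension at most `(1 / (α B) + τ) / (1 - ρ)` such that for each `s` outside `E` and
each `x ≠ 0`, for all but finitely many `i`, it holds for ALL these `y` (with `x y ^ B ≠ ± 1`).
The sequences `v_i = (i + 1) ^ a` and `v_i = b ^ i` have exponent of convergence at most `1 / a` and `0`. -/
theorem result :
    (∀ (B : ℕ) (α β ε : ℝ), 1 ≤ α → 0 ≤ β → ε < 1 / 2 → 2 ≤ ε * B →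
      ∀ (v : ℕ → ℝ) (τ ρ : ℝ), (∀ i, 1 ≤ v i) → 0 ≤ τ → ExpLe v τ → ρ < 1 →
      (∃ E : Set (Fin 2 → ℝ), dimH E ≤ ENNReal.ofReal ((2 / α + τ) / (1 - ρ)) ∧
        ∀ s : Fin 2 → ℝ, s ∉ E → ∃ i₀ : ℕ, ∀ i : ℕ, i₀ ≤ i → ∀ y : ℚ, y ≠ 0 →
          |(y.num : ℝ) - s 0 * v i| ≤ (v i) ^ ρ → |(y.den : ℝ) - s 1 * v i| ≤ (v i) ^ ρ →
            ∀ x : ℚ, x ≠ 0 → x * y ^ B ≠ 1 → x * y ^ B ≠ -1 → Holds B α β ε x y) ∧
      (∃ E : Set (Fin 2 → ℝ), dimH E ≤ ENNReal.ofReal ((1 / (α * B) + τ) / (1 - ρ)) ∧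
        ∀ s : Fin 2 → ℝ, s ∉ E → ∀ x : ℚ, x ≠ 0 → ∃ i₀ : ℕ, ∀ i : ℕ, i₀ ≤ i → ∀ y : ℚ, y ≠ 0 →
          |(y.num : ℝ) - s 0 * v i| ≤ (v i) ^ ρ → |(y.den : ℝ) - s 1 * v i| ≤ (v i) ^ ρ →
            x * y ^ B ≠ 1 → x * y ^ B ≠ -1 → Holds B α β ε x y)) ∧
    (∀ a : ℝ, 0 < a → ExpLe (fun n : ℕ => ((n : ℝ) + 1) ^ a) (1 / a)) ∧
    (∀ b : ℝ, 1 < b → ExpLe (fun n : ℕ => b ^ n) 0) := by
  refine ⟨fun B α β ε hα hβ hε hB v τ ρ hv hτ hE hρ => ?_, fun κ hκ => Pool.Agent.Y854.GM.expLe_pow κ hκ,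
    fun b hb => Pool.Agent.Y854.GM.expLe_geom b hb⟩
  have hα0 : 0 < α := by linarith
  have hB0 : (0 : ℝ) < B := by
    rcases Nat.eq_zero_or_pos B with h | h
    · rw [h, Nat.cast_zero, mul_zero] at hB
      linarith
    · exact_mod_cast h
  constructor
  · obtain ⟨E, hE1, hE2⟩ := Pool.Agent.X174.winQmax
      (fun y : ℚ => ∃ x : ℚ, x ≠ 0 ∧ y ≠ 0 ∧ x * y ^ B ≠ 1 ∧ x * y ^ B ≠ -1 ∧ ¬ Holds B α β ε x y)
      (s := 2 / α) (by positivity)
      (fun δ hδ => by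
        obtain ⟨C, hC⟩ := FewExceptions.result B α β ε δ hα hβ hε hB hδ
        refine ⟨C, fun T hT => ?_⟩
        obtain ⟨h1, h2, -⟩ := hC T hT
        have hsub : {c : ℚ | max |(c.num : ℝ)| (c.den : ℝ) ≤ T ∧
            ∃ x : ℚ, x ≠ 0 ∧ c ≠ 0 ∧ x * c ^ B ≠ 1 ∧ x * c ^ B ≠ -1 ∧ ¬ Holds B α β ε x c} ⊆
            Prod.snd '' Exceptions B α β ε T := by
          rintro c ⟨k1, x, k2, k3, k4, k5, k6⟩
          exact ⟨(x, c), ⟨k2, k3, k4, k5, k1, k6⟩, rfl⟩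
        refine ⟨(h1.image _).subset hsub, ?_⟩
        have h3 := (Set.ncard_le_ncard hsub (h1.image _)).trans (Set.ncard_image_le h1)
        exact (Nat.cast_le.2 h3).trans h2) hv hτ hE hρ
    refine ⟨E, hE1, fun s hs => ?_⟩
    obtain ⟨i₀, hi₀⟩ := hE2 s hs
    refine ⟨i₀, fun i hi y hy hn hd x hx h1 h2 => ?_⟩
    by_contra hcon
    exact hi₀ i hi y hn hd ⟨x, hx, hy, h1, h2, hcon⟩
  · have key : ∀ x : ℚ, ∃ E : Set (Fin 2 → ℝ), dimH E ≤ ENNReal.ofReal ((1 / (α * B) + τ) / (1 - ρ)) ∧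
        ∀ s : Fin 2 → ℝ, s ∉ E → x ≠ 0 → ∃ i₀ : ℕ, ∀ i : ℕ, i₀ ≤ i → ∀ y : ℚ, y ≠ 0 →
          |(y.num : ℝ) - s 0 * v i| ≤ (v i) ^ ρ → |(y.den : ℝ) - s 1 * v i| ≤ (v i) ^ ρ →
            x * y ^ B ≠ 1 → x * y ^ B ≠ -1 → Holds B α β ε x y := by
      intro x
      obtain ⟨E, hE1, hE2⟩ := Pool.Agent.X174.winQmax
        (fun y : ℚ => x ≠ 0 ∧ y ≠ 0 ∧ x * y ^ B ≠ 1 ∧ x * y ^ B ≠ -1 ∧ ¬ Holds B α β ε x y)
        (s := 1 / (α * B)) (by positivity)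
        (fun δ hδ => by
          obtain ⟨C, hC⟩ := FewExceptions.result B α β ε δ hα hβ hε hB hδ
          refine ⟨C, fun T hT => ?_⟩
          obtain ⟨h1, -, h2⟩ := hC T hT
          have hfin : {y : ℚ | (x, y) ∈ Exceptions B α β ε T}.Finite :=
            (h1.image Prod.snd).subset fun y hy => ⟨(x, y), hy, rfl⟩
          have hsub : {c : ℚ | max |(c.num : ℝ)| (c.den : ℝ) ≤ T ∧
              (x ≠ 0 ∧ c ≠ 0 ∧ x * c ^ B ≠ 1 ∧ x * c ^ B ≠ -1 ∧ ¬ Holds B α β ε x c)} ⊆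
              {y : ℚ | (x, y) ∈ Exceptions B α β ε T} := by
            rintro c ⟨k1, k2, k3, k4, k5, k6⟩
            exact ⟨k2, k3, k4, k5, k1, k6⟩
          refine ⟨hfin.subset hsub, ?_⟩
          exact (Nat.cast_le.2 (Set.ncard_le_ncard hsub hfin)).trans (h2 x)) hv hτ hE hρ
      refine ⟨E, hE1, fun s hs hx => ?_⟩
      obtain ⟨i₀, hi₀⟩ := hE2 s hs
      refine ⟨i₀, fun i hi y hy hn hd h1 h2 => ?_⟩
      by_contra hcon
      exact hi₀ i hi y hn hd ⟨hx, hy, h1, h2, hcon⟩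
    choose Es h1 h2 using key
    refine ⟨⋃ x, Es x, ?_, fun s hs x hx => h2 x s (fun hm => hs (Set.mem_iUnion.2 ⟨_, hm⟩)) hx⟩
    rw [dimH_iUnion]
    exact iSup_le h1

end Pool.Agent.Results.MP_05f553_nt.PointsInSquares
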