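import Pool.Agent.Results.MP_05f553_nt.FewExceptions
import Pool.Agent.X123.ML.Base

/-!
# Philippon's inequality near the points outside a small set

Let `s` be any map from the pairs of rational numbers to a metric space, for example `s(x, y) = y` as a real or a
`p`-adic number. For `α ≥ 1`, `β ≥ 0`, `ε < 1/2`, `ε B ≥ 2` and `τ > 0`, for all points `z` outside a set of Hausdorff
dimension at most `(2 / α) / τ` only finitely many pairs `(x, y)` with `|z - s(x, y)| ≤ H(y) ^ (-τ)` violate Philippon's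
inequality. Outside a set of dimension ZERO, for every `τ > 0`, every `B ≥ 5` and `ε = 2 / B` there are `α` and `β` such
that it holds for ALL pairs with `|z - s(x, y)| ≤ H(y) ^ (-τ)`: this is the statement of Q1 for these pairs.
-/

set_option autoImplicit false

open scoped ENNReal

namespace Pool.Agent.Results.MP_05f553_nt.PointsNearTargets

open FewExceptions (ht Holds Exceptions)
open Pool.Agent.X123.ML MeasureTheory

/-- the height `max (|a|, |b|)` of `y = a / b` -/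
noncomputable def H (y : ℚ) : ℝ := max |((y.num : ℤ) : ℝ)| ((y.den : ℕ) : ℝ)

/-- the pairs to which the inequality of Q1 refers -/
def Pair (B : ℕ) (t : ℚ × ℚ) : Prop := t.1 ≠ 0 ∧ t.2 ≠ 0 ∧ t.1 * t.2 ^ B ≠ 1 ∧ t.1 * t.2 ^ B ≠ -1

/-- the pairs with `|z - s(x, y)| ≤ H(y) ^ (-τ)` which violate the inequality -/
def Close {M : Type} [MetricSpace M] (s : ℚ × ℚ → M) (B : ℕ) (α β ε τ : ℝ) (z : M) :
    Set (ℚ × ℚ) :=
  {t | (Pair B t ∧ ¬ Holds B α β ε t.1 t.2) ∧ dist z (s t) ≤ H t.2 ^ (-τ)}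

/-- all exceptions -/
def Exc (B : ℕ) (α β ε : ℝ) : Set (ℚ × ℚ) := {t | Pair B t ∧ ¬ Holds B α β ε t.1 t.2}

lemma H_pos (y : ℚ) : 1 ≤ H y := by
  refine le_trans ?_ (le_max_right _ _)
  exact_mod_cast y.den_pos

lemma ht_nonneg (y : ℚ) : 0 ≤ ht y := Real.log_nonneg (H_pos y)

lemma cnt (B : ℕ) (α β ε : ℝ) (hα : 1 ≤ α) (hβ : 0 ≤ β) (hε : ε < 1 / 2) (hB : 2 ≤ ε * B) :
    Cnt (Exc B α β ε) (fun t => Real.log (H t.2)) (2 / α) := by
  apply cnt_of_pow (H := fun t : ℚ × ℚ => H t.2)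
  · exact fun t _ => lt_of_lt_of_le one_pos (H_pos t.2)
  · intro δ hδ
    obtain ⟨C, hC⟩ := FewExceptions.result B α β ε δ hα hβ hε hB hδ
    refine ⟨C, fun Y hY => ?_⟩
    obtain ⟨h1, h2, -⟩ := hC Y hY
    have hset : {t | t ∈ Exc B α β ε ∧ H t.2 ≤ Y} = Exceptions B α β ε Y := by
      ext t
      constructor
      · rintro ⟨⟨⟨g1, g2, g3, g4⟩, g5⟩, g6⟩
        exact ⟨g1, g2, g3, g4, g6, g5⟩
      · rintro ⟨g1, g2, g3, g4, g6, g5⟩
        exact ⟨⟨⟨g1, g2, g3, g4⟩, g5⟩, g6⟩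
    rw [hset]
    exact ⟨h1, h2⟩

/-- the inequality with a large `β` -/
lemma holds_of_le (B : ℕ) (hB : 1 ≤ B) (α ε : ℝ) (hα : 1 ≤ α) (hε : 0 ≤ ε) (x y : ℚ) :
    ∃ b : ℝ, ∀ β : ℝ, 0 ≤ β → b ≤ β → Holds B α β ε x y := by
  refine ⟨-(∑ p ∈ (x * y ^ B + 1).num.natAbs.primeFactors,
      Real.log ((padicNorm p (x * y ^ B + 1) : ℚ) : ℝ)), fun β hβ0 hβ => ?_⟩
  unfold Holds
  have hB1 : (1 : ℝ) ≤ (B : ℝ) := by exact_mod_cast hB
  have h1 : 0 ≤ α * (B : ℝ) * ht x := by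
    have := ht_nonneg x
    positivity
  have h2 : 0 ≤ ε * (B : ℝ) * ht y := by
    have := ht_nonneg y
    positivity
  have h3 : 0 ≤ ∑ p ∈ (x * y ^ B + 1).num.natAbs.primeFactors, Real.log (p : ℝ) :=
    Finset.sum_nonneg fun p _ => Real.log_natCast_nonneg p
  have hAB : 1 ≤ α * (B : ℝ) := one_le_mul_of_one_le_of_one_le hα hB1
  have h4 : 1 ≤ (B : ℝ) * (α * (B : ℝ) + ε) :=
    one_le_mul_of_one_le_of_one_le hB1 (by linarith)
  have h5 : 0 ≤ β + ∑ p ∈ (x * y ^ B + 1).num.natAbs.primeFactors, Real.log (p : ℝ) := by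
    linarith
  have h6 := mul_le_mul_of_nonneg_right h4 h5
  linarith

/-- **Theorem.** For every map `s` from the pairs of rational numbers to a metric space: (1) For `α ≥ 1`, `β ≥ 0`,
`ε < 1/2`, `ε B ≥ 2` and `τ > 0` there is a set `E` of Hausdorff dimension at most `(2 / α) / τ` such that for each `z`
outside `E` only finitely many pairs `(x, y)` of nonzero rational numbers with `x y ^ B ≠ 1, -1` and
`|z - s(x, y)| ≤ H(y) ^ (-τ)` violate Philippon's inequality. (2) There is a set `E` of Hausdorff dimension zero such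
that for each `z` outside `E`, every `τ > 0` and every `B ≥ 5` there are `α ≥ 1` and `β ≥ 0` such that Philippon's
inequality holds with `ε = 2 / B` for ALL pairs `(x, y)` of nonzero rational numbers with `x y ^ B ≠ 1, -1` and
`|z - s(x, y)| ≤ H(y) ^ (-τ)`. (3) If `s` is a map to the real numbers and `2 / α < τ`, the property in (1) holds for
almost all real `z`. -/
theorem result :
    (∀ (M : Type) [MetricSpace M] (s : ℚ × ℚ → M),
      (∀ (B : ℕ) (α β ε τ : ℝ), 1 ≤ α → 0 ≤ β → ε < 1 / 2 → 2 ≤ ε * B → 0 < τ →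
        ∃ E : Set M, dimH E ≤ ENNReal.ofReal (2 / α / τ) ∧
          ∀ z : M, z ∉ E → (Close s B α β ε τ z).Finite) ∧
      ∃ E : Set M, dimH E = 0 ∧ ∀ z : M, z ∉ E → ∀ τ : ℝ, 0 < τ → ∀ B : ℕ, 5 ≤ B →
        ∃ α β : ℝ, 1 ≤ α ∧ 0 ≤ β ∧ ∀ x y : ℚ, Pair B (x, y) →
          dist z (s (x, y)) ≤ H y ^ (-τ) → Holds B α β (2 / B) x y) ∧
    ∀ (s : ℚ × ℚ → ℝ) (B : ℕ) (α β ε τ : ℝ), 1 ≤ α → 0 ≤ β → ε < 1 / 2 → 2 ≤ ε * B → 2 / α < τ →
      ∀ᵐ z : ℝ, (Close s B α β ε τ z).Finite := by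
  have main1 : ∀ (M : Type) [MetricSpace M] (s : ℚ × ℚ → M) (B : ℕ) (α β ε τ : ℝ), 1 ≤ α →
      0 ≤ β → ε < 1 / 2 → 2 ≤ ε * B → 0 < τ →
        ∃ E : Set M, dimH E ≤ ENNReal.ofReal (2 / α / τ) ∧
          ∀ z : M, z ∉ E → (Close s B α β ε τ z).Finite := by
    intro M _ s B α β ε τ hα hβ hε hB hτ
    have hα0 : 0 < α := by linarith
    obtain ⟨E, hE, hE2⟩ := pos_dim (fun _ : Unit => Exc B α β ε) (fun t => Real.log (H t.2))
      (fun _ t _ => Real.log_nonneg (H_pos t.2)) (by positivity : (0 : ℝ) ≤ 2 / α) hτ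
      (fun _ => cnt B α β ε hα hβ hε hB) s
    refine ⟨E, hE, fun z hz => (hE2 z hz ()).subset ?_⟩
    rintro t ⟨h1, h2⟩
    refine ⟨h1, ?_⟩
    rw [exp_eq_pow (lt_of_lt_of_le one_pos (H_pos t.2))]
    exact h2
  refine ⟨fun M _ s => ⟨main1 M s, ?_⟩, fun s B α β ε τ hα hβ hε hB hlt => ?_⟩
  · have hB5 : ∀ m : ℕ, (2 : ℝ) / ((m + 5 : ℕ) : ℝ) < 1 / 2 := fun m => by
      rw [div_lt_div_iff₀ (by positivity) (by norm_num)]
      push_cast
      have : (0 : ℝ) ≤ (m : ℝ) := Nat.cast_nonneg m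
      linarith
    have hB2 : ∀ m : ℕ, (2 : ℝ) ≤ 2 / ((m + 5 : ℕ) : ℝ) * ((m + 5 : ℕ) : ℝ) := fun m => by
      rw [div_mul_cancel₀ _ (by positivity)]
    have hα : ∀ k : ℕ, (1 : ℝ) ≤ 2 * ((k : ℝ) + 1) ^ 2 := fun k => by
      have : (0 : ℝ) ≤ (k : ℝ) := Nat.cast_nonneg k
      nlinarith
    obtain ⟨E, hE, hE2⟩ := levels (fun (k : ℕ) (m : ℕ) => {z : M | {t | t ∈ Exc (m + 5)
        (2 * ((k : ℝ) + 1) ^ 2) 0 (2 / ((m + 5 : ℕ) : ℝ)) ∧ dist z (s t) ≤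
          Real.exp (-(1 / ((k : ℝ) + 1) * Real.log (H t.2)))}.Infinite}) (fun k m => by
      refine (dim_le (Exc (m + 5) (2 * ((k : ℝ) + 1) ^ 2) 0 (2 / ((m + 5 : ℕ) : ℝ)))
        (fun t => Real.log (H t.2)) (fun t _ => Real.log_nonneg (H_pos t.2)) (by positivity)
        (by positivity) (cnt (m + 5) _ 0 _ (hα k) le_rfl (hB5 m) (hB2 m)) s).trans (le_of_eq ?_)
      congr 1
      field_simp)
    refine ⟨E, hE, fun z hz τ hτ B hB => ?_⟩
    obtain ⟨m, rfl⟩ := Nat.exists_eq_add_of_le' hB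
    obtain ⟨J, hJ⟩ := hE2 z hz
    obtain ⟨k₀, hk₀⟩ := exists_nat_one_div_lt hτ
    obtain ⟨k, hk⟩ : ∃ k : ℕ, k = max J k₀ := ⟨_, rfl⟩
    have h1 := hJ k (by rw [hk]; exact le_max_left _ _) m
    rw [Set.mem_ofPred_eq, Set.not_infinite] at h1
    have hb : ∀ t : ℚ × ℚ, ∃ b : ℝ, ∀ β : ℝ, 0 ≤ β → b ≤ β →
        Holds (m + 5) (2 * ((k : ℝ) + 1) ^ 2) β (2 / ((m + 5 : ℕ) : ℝ)) t.1 t.2 := fun t =>
      holds_of_le (m + 5) (by omega) _ _ (hα k) (by positivity) t.1 t.2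
    choose b hb using hb
    obtain ⟨β₁, hβ₁⟩ := Set.Finite.bddAbove (h1.image b)
    refine ⟨2 * ((k : ℝ) + 1) ^ 2, max β₁ 0, hα k, le_max_right _ _, fun x y hxy hdist => ?_⟩
    by_contra hcon
    have h0 : ¬ Holds (m + 5) (2 * ((k : ℝ) + 1) ^ 2) 0 (2 / ((m + 5 : ℕ) : ℝ)) x y := by
      intro h
      apply hcon
      unfold Holds at h ⊢
      refine h.trans ?_
      have g1 : (0 : ℝ) ≤ max β₁ 0 := le_max_right _ _
      have g2 : 0 ≤ ((m + 5 : ℕ) : ℝ) * (2 * ((k : ℝ) + 1) ^ 2 * ((m + 5 : ℕ) : ℝ) +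
          2 / ((m + 5 : ℕ) : ℝ)) := by positivity
      have g3 := mul_nonneg g2 g1
      rw [mul_add, mul_add _ (max β₁ 0)]
      linarith
    have hmem : (x, y) ∈ {t | t ∈ Exc (m + 5) (2 * ((k : ℝ) + 1) ^ 2) 0
        (2 / ((m + 5 : ℕ) : ℝ)) ∧ dist z (s t) ≤
          Real.exp (-(1 / ((k : ℝ) + 1) * Real.log (H t.2)))} := by
      refine ⟨⟨hxy, h0⟩, ?_⟩
      rw [exp_eq_pow (lt_of_lt_of_le one_pos (H_pos _))]
      refine hdist.trans ?_
      apply Real.rpow_le_rpow_of_exponent_le (H_pos y)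
      have h5 : 1 / ((k : ℝ) + 1) ≤ 1 / ((k₀ : ℝ) + 1) := by
        apply one_div_le_one_div_of_le (by positivity)
        have : (k₀ : ℝ) ≤ (k : ℝ) := by rw [hk]; exact_mod_cast le_max_right _ _
        linarith
      linarith
    exact hcon (hb (x, y) _ (le_max_right _ _) ((hβ₁ ⟨(x, y), hmem, rfl⟩).trans (le_max_left _ _)))
  · have hα0 : 0 < α := by linarith
    have hτ : 0 < τ := lt_trans (by positivity) hlt
    obtain ⟨E, hE, hE2⟩ := main1 ℝ s B α β ε τ hα hβ hε hB hτ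
    have h3 : volume E = 0 := null_real (by rwa [div_lt_one hτ]) hE
    filter_upwards [measure_eq_zero_iff_ae_notMem.1 h3] with z hz
    exact hE2 z hz

end Pool.Agent.Results.MP_05f553_nt.PointsNearTargets
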