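import Pool.Agent.Results.MP_05f553_nt.FewExceptions
import Pool.Agent.X16.NW.E

/-!
# Philippon's inequality for all the rationals with a coordinate near the powers of a real number

Let `A ≥ 1` and `θ ≥ 0`, `2 A / α + θ < 1`. For almost all real `t > 1`, for all large `n` Philippon's inequality holds for
ALL `x` and all `y` with a numerator `± m` or denominator `m` in the window `|m - t ^ n| ≤ t ^ (θ n)` and of height at most
`m ^ A` (for `A = 1`: all `y` with height in the window). If `n` may depend on `x`, then `2 A / α` can be replaced by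
`A / (α B)`. The same is true for `t ^ κ_n` with real exponents such that `κ_n / log n → ∞`, and for the numbers `n ^ t`, for
almost all large `t`.

In general let `f_n : I → ℝ` be a family of functions whose logarithmic slopes are locally bounded from below by positive
constants and which are locally bounded from below by sequences with exponent of convergence at most `τ`. Then the
exceptional `t ∈ I` have Hausdorff dimension at most `(2 A / α + τ) / (1 - θ)`, and `(A / (α B) + τ) / (1 - θ)`. The starting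
result `SequenceHeights` is about the linear families `t v_n`.
-/

set_option autoImplicit false

namespace Pool.Agent.Results.MP_05f553_nt.RealPowers

open Finset Filter Topology MeasureTheory
open Pool.Agent.Results.MP_05f553_nt (FewExceptions.Holds)
open Pool.Agent.X16.NW (ExpLe Expanding LocExpanding)

/-- `y` has numerator `± m` or denominator `m`, and height at most `m ^ A` -/
def Has (A : ℝ) (m : ℕ) (y : ℚ) : Prop :=
  (y.num.natAbs = m ∨ y.den = m) ∧ max |((y.num : ℤ) : ℝ)| ((y.den : ℕ) : ℝ) ≤ (m : ℝ) ^ A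

/-- the inequality holds for all nonzero `y` with `Has A m y` and this `x` -/
def Good (B : ℕ) (α β ε A : ℝ) (x : ℚ) (m : ℕ) : Prop :=
  ∀ y : ℚ, y ≠ 0 → x * y ^ B ≠ 1 → x * y ^ B ≠ -1 → Has A m y → FewExceptions.Holds B α β ε x y

/-- the exceptional integers -/
def Bad (B : ℕ) (α β ε A : ℝ) : Set ℕ := {m : ℕ | ∃ x : ℚ, x ≠ 0 ∧ ¬ Good B α β ε A x m}

/-- the exceptional integers for a given `x` -/
def BadAt (B : ℕ) (α β ε A : ℝ) (x : ℚ) : Set ℕ := {m : ℕ | ¬ Good B α β ε A x m}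

open Classical in
lemma two_cover {T : Type} (S : Set T) (hS : S.Finite) (f g : T → ℕ) (P : Set ℕ) (X : ℕ)
    (h : ∀ m ∈ P, 0 < m → m ≤ X → ∃ t ∈ S, f t = m ∨ g t = m) :
    (((Ioc 0 X).filter (fun m => m ∈ P)).card : ℝ) ≤ 2 * (S.ncard : ℝ) := by
  have hsub : (Ioc 0 X).filter (fun m => m ∈ P) ⊆ hS.toFinset.image f ∪ hS.toFinset.image g := by
    intro m hm
    rw [mem_filter, mem_Ioc] at hm
    obtain ⟨t, ht, h1⟩ := h m hm.2 hm.1.1 hm.1.2
    rw [mem_union, mem_image, mem_image]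
    rcases h1 with h1 | h1
    · exact Or.inl ⟨t, by rwa [Set.Finite.mem_toFinset], h1⟩
    · exact Or.inr ⟨t, by rwa [Set.Finite.mem_toFinset], h1⟩
  have e : S.ncard = hS.toFinset.card := Set.ncard_eq_toFinset_card _ hS
  have g1 := (card_le_card hsub).trans (card_union_le _ _)
  have g3 := card_image_le (s := hS.toFinset) (f := f)
  have g4 := card_image_le (s := hS.toFinset) (f := g)
  have h5 : ((Ioc 0 X).filter (fun m => m ∈ P)).card ≤ 2 * S.ncard := by omega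
  exact_mod_cast h5

lemma pow_bound {C A s ε : ℝ} (hA : 0 < A) (hs : 0 ≤ s) (hε : 0 < ε) (X : ℕ) (hX : 1 ≤ X) {N : ℝ}
    (h : N ≤ C * (((X : ℝ) ^ A)) ^ (s + ε / A)) : 2 * N ≤ 2 * |C| * (X : ℝ) ^ (A * s + ε) := by
  have hX1 : (1 : ℝ) ≤ X := by exact_mod_cast hX
  have e : ((X : ℝ) ^ A) ^ (s + ε / A) = (X : ℝ) ^ (A * s + ε) := by
    rw [← Real.rpow_mul (by positivity)]
    congr 1
    field_simp
  rw [e] at h
  have h2 : C * (X : ℝ) ^ (A * s + ε) ≤ |C| * (X : ℝ) ^ (A * s + ε) :=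
    mul_le_mul_of_nonneg_right (le_abs_self C) (by positivity)
  linarith

open Classical in
lemma count (B : ℕ) (α β ε A : ℝ) (hα : 1 ≤ α) (hβ : 0 ≤ β) (hε : ε < 1 / 2) (hB : 2 ≤ ε * B) (hA : 1 ≤ A)
    (δ : ℝ) (hδ : 0 < δ) : ∃ C : ℝ, ∀ X : ℕ, 1 ≤ X →
      (((Ioc 0 X).filter (fun m => m ∈ Bad B α β ε A)).card : ℝ) ≤ C * (X : ℝ) ^ (A * (2 / α) + δ) := by
  have hA0 : 0 < A := by linarith
  have hα0 : 0 < α := by linarith
  obtain ⟨C, hC⟩ := FewExceptions.result B α β ε (δ / A) hα hβ hε hB (by positivity)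
  refine ⟨2 * |C|, fun X hX => ?_⟩
  have hX1 : (1 : ℝ) ≤ X := by exact_mod_cast hX
  obtain ⟨hfin, hcard, -⟩ := hC ((X : ℝ) ^ A) (Real.one_le_rpow hX1 hA0.le)
  refine (two_cover _ hfin (fun t => t.2.num.natAbs) (fun t => t.2.den) _ X ?_).trans
    (pow_bound hA0 (by positivity) hδ X hX hcard)
  rintro m ⟨x, hx, hg⟩ hm0 hmX
  unfold Good at hg
  push Not at hg
  obtain ⟨y, hy, h1, h2, h3, h4⟩ := hg
  refine ⟨(x, y), ⟨hx, hy, h1, h2, h3.2.trans ?_, h4⟩, h3.1⟩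
  exact Real.rpow_le_rpow (Nat.cast_nonneg _) (by exact_mod_cast hmX) hA0.le

open Classical in
lemma countAt (B : ℕ) (α β ε A : ℝ) (hα : 1 ≤ α) (hβ : 0 ≤ β) (hε : ε < 1 / 2) (hB : 2 ≤ ε * B) (hA : 1 ≤ A)
    (x : ℚ) (hx : x ≠ 0) (δ : ℝ) (hδ : 0 < δ) : ∃ C : ℝ, ∀ X : ℕ, 1 ≤ X →
      (((Ioc 0 X).filter (fun m => m ∈ BadAt B α β ε A x)).card : ℝ) ≤
        C * (X : ℝ) ^ (A * (1 / (α * B)) + δ) := by
  have hA0 : 0 < A := by linarith
  have hα0 : 0 < α := by linarith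
  obtain ⟨C, hC⟩ := FewExceptions.result B α β ε (δ / A) hα hβ hε hB (by positivity)
  refine ⟨2 * |C|, fun X hX => ?_⟩
  have hX1 : (1 : ℝ) ≤ X := by exact_mod_cast hX
  obtain ⟨hfin, -, hcard⟩ := hC ((X : ℝ) ^ A) (Real.one_le_rpow hX1 hA0.le)
  have hfin' : {y : ℚ | (x, y) ∈ FewExceptions.Exceptions B α β ε ((X : ℝ) ^ A)}.Finite :=
    hfin.preimage (Prod.mk_right_injective x).injOn
  refine (two_cover _ hfin' (fun t => t.num.natAbs) (fun t => t.den) _ X ?_).trans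
    (pow_bound hA0 (by positivity) hδ X hX (hcard x))
  rintro m hg hm0 hmX
  have hg' : ¬ Good B α β ε A x m := hg
  unfold Good at hg'
  push Not at hg'
  obtain ⟨y, hy, h1, h2, h3, h4⟩ := hg'
  refine ⟨y, ⟨hx, hy, h1, h2, h3.2.trans ?_, h4⟩, h3.1⟩
  exact Real.rpow_le_rpow (Nat.cast_nonneg _) (by exact_mod_cast hmX) hA0.le

/-- **Theorem.** Let `α ≥ 1`, `β ≥ 0`, `ε < 1/2`, `ε B ≥ 2`, `A ≥ 1`, `0 ≤ θ < 1`.
(1) Let `f` be a locally expanding family on `I` with exponent `τ ≥ 0`. There is a set `E` of Hausdorff dimension at most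
`(2 A / α + τ) / (1 - θ)` such that for each `t ∈ I` outside `E`, for all large `n` the inequality holds for ALL `x ≠ 0` and
all `y ≠ 0` of height at most `m ^ A` with numerator `± m` or denominator `m`, where `|m - f_n(t)| ≤ f_n(t) ^ θ` (and
`x y ^ B ≠ ± 1`). There is a set `E` of Hausdorff dimension at most `(A / (α B) + τ) / (1 - θ)` such that for each `t ∈ I`
outside `E` and each `x ≠ 0` the same is true for this `x` for all large `n`.
(2) If `κ_n / log n → ∞`: for almost all `t > 1` the first statement holds with `t ^ κ_n` if `2 A / α + θ < 1`, the second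
one if `A / (α B) + θ < 1`. (3) For almost all `t > 1 / (1 - 2 A / α - θ)` the first statement holds with `n ^ t` if
`2 A / α + θ < 1`. (4) `t ^ κ_n` is locally expanding on `(1, ∞)` with `τ = 0` if `κ_n / log n → ∞`, and `n ^ t` on
`[a, ∞)` with `τ = 1 / a`. -/
theorem result (B : ℕ) (α β ε A θ : ℝ) (hα : 1 ≤ α) (hβ : 0 ≤ β) (hε : ε < 1 / 2) (hB : 2 ≤ ε * B) (hA : 1 ≤ A)
    (hθ : 0 ≤ θ) (hθ1 : θ < 1) :
    (∀ (f : ℕ → ℝ → ℝ) (I : Set ℝ) (τ : ℝ), 0 ≤ τ → LocExpanding f I τ →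
      (∃ E : Set ℝ, dimH E ≤ ENNReal.ofReal ((2 * A / α + τ) / (1 - θ)) ∧ ∀ t ∈ I, t ∉ E →
        ∃ n₀ : ℕ, ∀ n : ℕ, n₀ ≤ n → ∀ m : ℕ, |(m : ℝ) - f n t| ≤ (f n t) ^ θ → ∀ x : ℚ, x ≠ 0 →
          Good B α β ε A x m) ∧
      (∃ E : Set ℝ, dimH E ≤ ENNReal.ofReal ((A / (α * B) + τ) / (1 - θ)) ∧ ∀ t ∈ I, t ∉ E →
        ∀ x : ℚ, x ≠ 0 → ∃ n₀ : ℕ, ∀ n : ℕ, n₀ ≤ n → ∀ m : ℕ, |(m : ℝ) - f n t| ≤ (f n t) ^ θ →
          Good B α β ε A x m)) ∧
    (∀ κ : ℕ → ℝ, Tendsto (fun n : ℕ => κ n / Real.log n) atTop atTop →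
      (2 * A / α + θ < 1 → ∀ᵐ t : ℝ, 1 < t → ∃ n₀ : ℕ, ∀ n : ℕ, n₀ ≤ n → ∀ m : ℕ,
        |(m : ℝ) - t ^ κ n| ≤ (t ^ κ n) ^ θ → ∀ x : ℚ, x ≠ 0 → Good B α β ε A x m) ∧
      (A / (α * B) + θ < 1 → ∀ᵐ t : ℝ, 1 < t → ∀ x : ℚ, x ≠ 0 → ∃ n₀ : ℕ, ∀ n : ℕ, n₀ ≤ n → ∀ m : ℕ,
        |(m : ℝ) - t ^ κ n| ≤ (t ^ κ n) ^ θ → Good B α β ε A x m)) ∧
    (2 * A / α + θ < 1 → ∀ᵐ t : ℝ, 1 / (1 - 2 * A / α - θ) < t → ∃ n₀ : ℕ, ∀ n : ℕ, n₀ ≤ n → ∀ m : ℕ,
        |(m : ℝ) - (n : ℝ) ^ t| ≤ ((n : ℝ) ^ t) ^ θ → ∀ x : ℚ, x ≠ 0 → Good B α β ε A x m) ∧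
    (∀ κ : ℕ → ℝ, Tendsto (fun n : ℕ => κ n / Real.log n) atTop atTop →
      LocExpanding (fun n t => t ^ κ n) (Set.Ioi 1) 0) ∧
    (∀ a : ℝ, 0 < a → LocExpanding (fun n t => (n : ℝ) ^ t) (Set.Ici a) (1 / a)) := by
  have hA0 : 0 < A := by linarith
  have hα0 : 0 < α := by linarith
  have hc := Pool.Agent.X16.NW.count_filter (Bad B α β ε A) (s := A * (2 / α)) (by positivity)
    (count B α β ε A hα hβ hε hB hA)
  have hcx : ∀ x : {x : ℚ // x ≠ 0}, _ := fun x =>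
    Pool.Agent.X16.NW.count_filter (BadAt B α β ε A x) (s := A * (1 / (α * B))) (by positivity)
    (countAt B α β ε A hα hβ hε hB hA x x.2)
  have hgood : ∀ F : ℝ, (∀ e ∈ Bad B α β ε A, F ^ θ < |(e : ℝ) - F|) → ∀ m : ℕ,
      |(m : ℝ) - F| ≤ F ^ θ → ∀ x : ℚ, x ≠ 0 → Good B α β ε A x m := by
    intro F h m hm x hx
    by_contra hcon
    exact absurd (h m ⟨x, hx, hcon⟩) (not_lt.2 hm)
  refine ⟨fun f I τ hτ hf => ⟨?_, ?_⟩, fun κ hκ => ⟨fun h1 => ?_, fun h1 => ?_⟩, fun h1 => ?_,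
    fun κ hκ => Pool.Agent.X16.NW.loc_rpow κ hκ, fun a ha => Pool.Agent.X16.NW.loc_npow a ha⟩
  · obtain ⟨E, h1, h2⟩ := Pool.Agent.X16.NW.windows_loc (Bad B α β ε A) (fun m => (m : ℝ)) hτ
      (s := A * (2 / α)) (by positivity) hθ hθ1 hc I f hf
    rw [show A * (2 / α) + τ = 2 * A / α + τ by ring] at h1
    refine ⟨E, h1, fun t ht htE => ?_⟩
    obtain ⟨n₀, hn⟩ := h2 t ht htE
    exact ⟨n₀, fun n hn1 => hgood _ (hn n hn1)⟩
  · have hx : ∀ x : {x : ℚ // x ≠ 0}, ∃ E : Set ℝ, dimH E ≤ ENNReal.ofReal ((A / (α * B) + τ) / (1 - θ)) ∧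
        ∀ t ∈ I, t ∉ E → ∃ n₀ : ℕ, ∀ n : ℕ, n₀ ≤ n → ∀ m : ℕ, |(m : ℝ) - f n t| ≤ (f n t) ^ θ →
          Good B α β ε A x m := by
      intro x
      obtain ⟨E, h1, h2⟩ := Pool.Agent.X16.NW.windows_loc (BadAt B α β ε A x) (fun m => (m : ℝ)) hτ
        (s := A * (1 / (α * B))) (by positivity) hθ hθ1 (hcx x) I f hf
      rw [show A * (1 / (α * B)) + τ = A / (α * B) + τ by ring] at h1
      refine ⟨E, h1, fun t ht htE => ?_⟩
      obtain ⟨n₀, hn⟩ := h2 t ht htE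
      refine ⟨n₀, fun n hn1 m hm => ?_⟩
      by_contra hcon
      exact absurd (hn n hn1 m hcon) (not_lt.2 hm)
    choose E h1 h2 using hx
    refine ⟨⋃ x, E x, ?_, fun t ht htE x hx => ?_⟩
    · rw [dimH_iUnion]
      exact iSup_le h1
    · exact h2 ⟨x, hx⟩ t ht (fun h => htE (Set.mem_iUnion.2 ⟨_, h⟩))
  · filter_upwards [Pool.Agent.X16.NW.ae_rpow (Bad B α β ε A) (fun m => (m : ℝ)) (s := A * (2 / α))
      (by positivity) hc κ hκ θ hθ (by rw [show A * (2 / α) = 2 * A / α by ring]; exact h1)] with t h ht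
    obtain ⟨n₀, hn⟩ := h ht
    exact ⟨n₀, fun n hn1 => hgood _ (hn n hn1)⟩
  · have h3 : ∀ x : {x : ℚ // x ≠ 0}, _ := fun x =>
      Pool.Agent.X16.NW.ae_rpow (BadAt B α β ε A x) (fun m => (m : ℝ)) (s := A * (1 / (α * B)))
        (by positivity) (hcx x) κ hκ θ hθ (by rw [show A * (1 / (α * B)) = A / (α * B) by ring]; exact h1)
    filter_upwards [ae_all_iff.2 h3] with t h ht x hx
    obtain ⟨n₀, hn⟩ := h ⟨x, hx⟩ ht
    refine ⟨n₀, fun n hn1 m hm => ?_⟩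
    by_contra hcon
    exact absurd (hn n hn1 m hcon) (not_lt.2 hm)
  · filter_upwards [Pool.Agent.X16.NW.ae_npow (Bad B α β ε A) (fun m => (m : ℝ)) (s := A * (2 / α))
      (by positivity) hc θ hθ (by rw [show A * (2 / α) = 2 * A / α by ring]; exact h1)] with t h ht
    rw [show 1 - A * (2 / α) - θ = 1 - 2 * A / α - θ by ring] at h
    obtain ⟨n₀, hn⟩ := h ht
    exact ⟨n₀, fun n hn1 => hgood _ (hn n hn1)⟩

end Pool.Agent.Results.MP_05f553_nt.RealPowers
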